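import Mathlib
import Pool.Agent.W_MP_55e37b_an.Defs
import Pool.Agent.W_55e37b_h14.LamLe
import Pool.Agent.W_55e37b_h14.Iso
import Pool.Agent.W_55e37b_h14.Helicoid

set_option autoImplicit false

namespace Pool.Agent.Results.MP_55e37b_an.IsometryClass

open HMor

/-- Let `n ≥ 2`, `p > n`.
(1) If for every point `x` of the open set `Ω` there is an isometry `T` of `ℝⁿ` with `T(Ω)` disjoint
from `Ω` and `|x - T x| ≤ 2 d(x)`, then `λ_p(Ω) = λ_p(ℝⁿ₊)`, and `Ω` has an extremal only if it is a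
halfspace.
(2) For `n ≥ 3` one side of a helicoid is open, connected and not convex, has the constant of the
halfspace and no extremal. -/
theorem result (n : ℕ) (hn : 2 ≤ n) (p : ℝ) (hp : (n : ℝ) < p) (e : E n) (he : ‖e‖ = 1) :
    (∀ Ω : Set (E n), IsOpen Ω → Ω.Nonempty → Ω ≠ Set.univ →
      (∀ x ∈ Ω, ∃ T : E n ≃ᵢ E n, Disjoint (T '' Ω) Ω ∧ dist x (T x) ≤ 2 * Metric.infDist x Ωᶜ) →
      lam p Ω = lam p (halfspace e 0) ∧
        (HasExtremal p Ω → ∃ (ν : E n) (c : ℝ), ‖ν‖ = 1 ∧ Ω = halfspace ν c)) ∧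
    (∀ h : 3 ≤ n, IsOpen (Hel n h) ∧ IsConnected (Hel n h) ∧ ¬ Convex ℝ (Hel n h) ∧
      lam p (Hel n h) = lam p (halfspace e 0) ∧ ¬ HasExtremal p (Hel n h)) := by
  have key : ∀ Ω : Set (E n), IsOpen Ω → Ω.Nonempty → Ω ≠ Set.univ →
      (∀ x ∈ Ω, ∃ T : E n ≃ᵢ E n, Disjoint (T '' Ω) Ω ∧ dist x (T x) ≤ 2 * Metric.infDist x Ωᶜ) →
      lam p Ω = lam p (halfspace e 0) ∧
        (HasExtremal p Ω → ∃ (ν : E n) (c : ℝ), ‖ν‖ = 1 ∧ Ω = halfspace ν c) := by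
    intro Ω hΩ hne hΩ' hT
    have h1 : lam p Ω = lam p (halfspace e 0) :=
      le_antisymm (lam_le_halfspace hn hp he hΩ hne hΩ') (iso_ge hn hp he hΩ hΩ' hT)
    exact ⟨h1, iso_extremal hn hp he hΩ hΩ' hT h1⟩
  refine ⟨key, fun h => ?_⟩
  have hne : (Hel n h).Nonempty := (hel_connected n h).nonempty
  have huniv : Hel n h ≠ Set.univ := by
    intro hu
    exact hel_not_convex n h (hu ▸ convex_univ)
  obtain ⟨h1, h2⟩ := key (Hel n h) (hel_open n h) hne huniv (hel_isom n h)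
  refine ⟨hel_open n h, hel_connected n h, hel_not_convex n h, h1, fun hE => ?_⟩
  obtain ⟨ν, c, -, hν⟩ := h2 hE
  exact hel_not_convex n h (hν ▸ iso_halfspace_convex ν c)

end Pool.Agent.Results.MP_55e37b_an.IsometryClass
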