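import Mathlib
import Pool.Agent.W_MP_55e37b_an.Defs
import Pool.Agent.W_MP_55e37b_an.Planar

set_option autoImplicit false

namespace Pool.Agent.Results.MP_55e37b_an.LineAndPlane

open HMor

/-- Q1 holds in dimensions one and two, for every `p > n` and every connected open set. -/
theorem result (n : ℕ) (hn : 1 ≤ n) (hn2 : n ≤ 2) (p : ℝ) (hp : (n : ℝ) < p)
    (e : E n) (he : ‖e‖ = 1) (Ω : Set (E n)) (hΩ : IsOpen Ω) (hc : IsConnected Ω)
    (hΩ' : Ω ≠ Set.univ) (hl : lam p Ω = lam p (halfspace e 0)) (hext : HasExtremal p Ω) :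
    ∃ (ν : E n) (c : ℝ), ‖ν‖ = 1 ∧ Ω = halfspace ν c :=
  low_dim hn hn2 hp he hΩ hc.isPreconnected hΩ' hl hext

end Pool.Agent.Results.MP_55e37b_an.LineAndPlane
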