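import Mathlib
import Pool.Agent.W_MP_55e37b_an.Defs
import Pool.Agent.W_55e37b_h43.FinalP
import Pool.Agent.W_55e37b_h43.Geom
import Pool.Agent.W_55e37b_h43.Ex

set_option autoImplicit false

namespace Pool.Agent.Results.MP_55e37b_an.PositiveMeanCurvature

open HMor

/-- Let `n ≥ 2`.
(1) For all `C, τ, δ > 0` there is `p₀ > n` such that for every `p ≥ p₀` every uniformly strictly mean
convex open set with these constants has the constant of the halfspace and no extremal.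
(2) In particular this holds, for all large `p`, for every bounded `C²` domain with positive mean
curvature.
(3) For `n ≥ 3` the bounded connected set `|y|² < (1 + 2 t² - t⁴)/4` of `ℝ × ℝⁿ⁻¹`, which is not convex, is
one of them. -/
theorem result (n : ℕ) (hn : 2 ≤ n) :
    (∀ C τ δ : ℝ, 0 < C → 0 < τ → 0 < δ → ∃ p₀ : ℝ, (n : ℝ) < p₀ ∧ ∀ p : ℝ, p₀ ≤ p →
      ∀ Ω : Set (E n), IsOpen Ω → Ω.Nonempty → Ω ≠ Set.univ → StrictlyMeanConvex Ω C τ δ →
      ∀ e : E n, ‖e‖ = 1 → lam p Ω = lam p (halfspace e 0) ∧ ¬ HasExtremal p Ω) ∧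
    (∀ f : E n → ℝ, ContDiff ℝ 2 f → Bornology.IsBounded {x | 0 < f x} →
      {x | 0 < f x}.Nonempty →
      (∀ y ∈ frontier {x | 0 < f x}, gradient f y ≠ 0 ∧ tanLap f y < 0) →
      ∃ p₀ : ℝ, (n : ℝ) < p₀ ∧ ∀ p : ℝ, p₀ ≤ p → ∀ e : E n, ‖e‖ = 1 →
        lam p {x | 0 < f x} = lam p (halfspace e 0) ∧ ¬ HasExtremal p {x | 0 < f x}) ∧
    (3 ≤ n → ∀ i : Fin n, IsOpen (Dumb n i) ∧ IsConnected (Dumb n i) ∧
      Bornology.IsBounded (Dumb n i) ∧ ¬ Convex ℝ (Dumb n i) ∧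
      ∃ p₀ : ℝ, (n : ℝ) < p₀ ∧ ∀ p : ℝ, p₀ ≤ p → ∀ e : E n, ‖e‖ = 1 →
        lam p (Dumb n i) = lam p (halfspace e 0) ∧ ¬ HasExtremal p (Dumb n i)) := by
  have key : ∀ f : E n → ℝ, ContDiff ℝ 2 f → Bornology.IsBounded {x | 0 < f x} →
      {x | 0 < f x}.Nonempty →
      (∀ y ∈ frontier {x | 0 < f x}, gradient f y ≠ 0 ∧ tanLap f y < 0) →
      ∃ p₀ : ℝ, (n : ℝ) < p₀ ∧ ∀ p : ℝ, p₀ ≤ p → ∀ e : E n, ‖e‖ = 1 →
        lam p {x | 0 < f x} = lam p (halfspace e 0) ∧ ¬ HasExtremal p {x | 0 < f x} := by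
    intro f hf hb hne hg
    obtain ⟨C, τ, δ, hC, hτ, hδ, h⟩ := geom hn hf hb hg
    obtain ⟨p₀, hp₀, hmain⟩ := smc_main n hn hC hτ hδ
    refine ⟨p₀, hp₀, fun p hp e he => ?_⟩
    refine hmain p hp _ (isOpen_lt continuous_const hf.continuous) hne ?_ h e he
    intro hu
    rw [hu] at hb
    have : Nontrivial (E n) := by
      have : Nonempty (Fin n) := ⟨⟨0, by omega⟩⟩
      infer_instance
    exact NormedSpace.unbounded_univ ℝ (E n) hb
  refine ⟨fun C τ δ hC hτ hδ => smc_main n hn hC hτ hδ, key, fun h3 i => ?_⟩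
  refine ⟨dumb_open i, dumb_connected i, dumb_bounded i, dumb_not_convex hn i, ?_⟩
  refine key (dumbFun n i) (dumb_contDiff n i) (dumb_bounded i) (dumb_connected i).nonempty ?_
  intro y hy
  have h1 : dumbFun n i y = 0 :=
    (frontier_lt_subset_eq continuous_const (dumb_contDiff n i).continuous hy).symm
  exact dumb_boundary h3 i y h1

end Pool.Agent.Results.MP_55e37b_an.PositiveMeanCurvature
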