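import Mathlib
import Pool.Agent.W_MP_55e37b_an.Defs
import Pool.Agent.W_MP_55e37b_an.Final

set_option autoImplicit false

namespace Pool.Agent.Results.MP_55e37b_an.TouchingStrict

open HMor

/-- If the complement of the open set `Ω ⊆ ℝⁿ` (`n ≥ 2`) is, near one of its points `y`, contained
in a parabolic cylinder `{x : (x-y)·ν ≤ -c ((x-y)·w)²}`, then `λ_p(Ω) < λ_p(ℝⁿ₊)`. -/
theorem result (n : ℕ) (hn : 2 ≤ n) (p : ℝ) (hp : (n : ℝ) < p) (e : E n) (he : ‖e‖ = 1)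
    (Ω : Set (E n)) (hΩ : IsOpen Ω) (y ν w : E n) (hν : ‖ν‖ = 1) (hw : ‖w‖ = 1)
    (hνw : inner ℝ ν w = 0) (c r : ℝ) (hc : 0 < c) (hr : 0 < r) (hy : y ∉ Ω)
    (h : {x : E n | ‖x - y‖ < r ∧ -c * (inner ℝ (x - y) w) ^ 2 < inner ℝ (x - y) ν} ⊆ Ω) :
    lam p Ω < lam p (halfspace e 0) :=
  touching hn hp he hΩ hν hw hνw hc hr hy h

end Pool.Agent.Results.MP_55e37b_an.TouchingStrict
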